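import Pool.Agent.Lib.helper19.Elus2

set_option autoImplicit false

namespace Pool.Agent.Results.MP_3b52ff_co.Yes

/-- The position after `n` turns of the run `r`; `r m` is the pair asked by Seeker at turn `m`
together with the answer of Hider (`true` = green, `false` = red). -/
def hist (r : ℕ → Sym2 ℕ × Bool) (n : ℕ) : List (Sym2 ℕ × Bool) := (List.range n).map r

/-- Seeker only asks pairs of distinct vertices that are still white. -/
def LegalRun (r : ℕ → Sym2 ℕ × Bool) : Prop :=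
  (∀ n, ¬ (r n).1.IsDiag) ∧ Function.Injective fun n => (r n).1

/-- Green pairs at the end of the run. -/
def green (r : ℕ → Sym2 ℕ × Bool) : Set (Sym2 ℕ) := {e | ∃ n, r n = (e, true)}

/-- White pairs at the end of the run. -/
def white (r : ℕ → Sym2 ℕ × Bool) : Set (Sym2 ℕ) := {e | ¬ e.IsDiag ∧ ∀ n, (r n).1 ≠ e}

/-- The graphs between the green pairs and the green or white pairs. -/
def poss (r : ℕ → Sym2 ℕ × Bool) : Set (SimpleGraph ℕ) :=
  {H | green r ⊆ H.edgeSet ∧ H.edgeSet ⊆ green r ∪ white r}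

/-- Seeker wins the run. -/
def SeekerWins (S : Set (SimpleGraph ℕ)) (r : ℕ → Sym2 ℕ × Bool) : Prop :=
  (white r).Nonempty ∧ (poss r ⊆ S ∨ poss r ∩ S = ∅)

/-- A winning strategy of Seeker. -/
def SeekerStrat (S : Set (SimpleGraph ℕ)) (σ : List (Sym2 ℕ × Bool) → Sym2 ℕ) : Prop :=
  ∀ r : ℕ → Sym2 ℕ × Bool, (∀ n, (r n).1 = σ (hist r n)) → LegalRun r ∧ SeekerWins S r

/-- A winning strategy of Hider. -/
def HiderStrat (S : Set (SimpleGraph ℕ)) (τ : List (Sym2 ℕ × Bool) → Sym2 ℕ → Bool) : Prop :=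
  ∀ r : ℕ → Sym2 ℕ × Bool, LegalRun r → (∀ n, (r n).2 = τ (hist r n) (r n).1) → ¬ SeekerWins S r

/-- Every vertex has degree at least `k` (degrees may be infinite). -/
def D (k : ℕ) : Set (SimpleGraph ℕ) := {H | ∀ v, (k : ℕ∞) ≤ (H.neighborSet v).encard}

open Pool.Agent.Lib.helper19 Set SimpleGraph

lemma hider (k : ℕ) (hk : 2 ≤ k) : ∃ τ, HiderStrat (D k) τ := by
  classical
  let p : ℕ → ℕ := fun z => (Nat.unpair (z - 1)).1
  let N : List (Sym2 ℕ × Bool) → ℕ → Set ℕ := fun h y => {w | (s(y, w), true) ∈ h}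
  let B : List (Sym2 ℕ × Bool) → ℕ → Set ℕ := fun h y => {x | x < y ∧ ∀ m ∈ h, m.1 ≠ s(x, y)}
  let A : List (Sym2 ℕ × Bool) → ℕ → Prop := fun h y => (N h y).ncard + 1 ≤ k ∧
    ((B h y).Nonempty → (N h y).ncard + 2 ≤ k) ∧
      (p y ∈ B h y → (∃ x ∈ B h y, x ≠ p y) → (N h y).ncard + 3 ≤ k)
  refine ⟨fun h e => decide (∃ z, p z < z ∧ e = s(p z, z) ∧ A h (p z)), fun r hl hr hw => ?_⟩
  have mN : ∀ n y w, w ∈ N (hist r n) y ↔ ∃ m < n, r m = (s(y, w), true) := fun n y w => Elus.mem_hist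
  have mB : ∀ n y x, x ∈ B (hist r n) y ↔ x < y ∧ ∀ m < n, (r m).1 ≠ s(x, y) := fun n y x =>
    and_congr_right fun _ => ⟨fun h m hm => h _ (Elus.mem_hist.2 ⟨m, hm, rfl⟩), fun h e he => by
      obtain ⟨m, hm, rfl⟩ := Elus.mem_hist.1 he; exact h m hm⟩
  have Nf : ∀ n y, (N (hist r n) y).Finite := fun n y =>
    (hist r n).finite_toSet.preimage (f := fun w => (s(y, w), true)) fun a _ b _ h =>
      Sym2.congr_right.1 (congrArg Prod.fst h)
  have Bm : ∀ n y, B (hist r (n + 1)) y ⊆ B (hist r n) y := fun n y x hx =>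
    (mB _ _ _).2 ⟨((mB _ _ _).1 hx).1, fun m hm => ((mB _ _ _).1 hx).2 m (by omega)⟩
  have inv : ∀ n y, ((B (hist r n) y).Nonempty → (N (hist r n) y).ncard + 1 ≤ k) ∧
      (p y ∈ B (hist r n) y → (∃ x ∈ B (hist r n) y, x ≠ p y) → (N (hist r n) y).ncard + 2 ≤ k) := by
    intro n
    induction n with
    | zero =>
      intro y
      have : N (hist r 0) y = ∅ := eq_empty_of_forall_notMem fun w hw => by simpa using (mN _ _ _).1 hw
      rw [this, ncard_empty]
      exact ⟨fun _ => by omega, fun _ _ => by omega⟩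
    | succ n ih =>
      intro y
      by_cases h : ∃ w, r n = (s(y, w), true)
      · obtain ⟨w, hw⟩ := h
        have h1 : (N (hist r (n + 1)) y).ncard ≤ (N (hist r n) y).ncard + 1 := by
          refine (ncard_le_ncard (t := insert w (N (hist r n) y)) (fun a ha => ?_)
            ((Nf n y).insert w)).trans (ncard_insert_le _ _)
          obtain ⟨m, hm, e⟩ := (mN _ _ _).1 ha
          rcases (by omega : m = n ∨ m < n) with rfl | hm'
          · exact Or.inl (Sym2.congr_right.1 (congrArg Prod.fst (e.symm.trans hw)))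
          · exact Or.inr ((mN _ _ _).2 ⟨m, hm', e⟩)
        have h2 := hr n
        rw [hw] at h2
        obtain ⟨z, z1, z2, z3⟩ := of_decide_eq_true h2.symm
        rcases Sym2.eq_iff.1 z2 with ⟨rfl, rfl⟩ | ⟨rfl, rfl⟩
        · exact ⟨fun h => by have := z3.2.1 (h.mono (Bm _ _)); omega,
            fun h ⟨x, x1, x2⟩ => by have := z3.2.2 (Bm _ _ h) ⟨x, Bm _ _ x1, x2⟩; omega⟩
        · have h3 : p y ∉ B (hist r (n + 1)) y := fun h =>
            ((mB _ _ _).1 h).2 n n.lt_succ_self (by rw [hw]; exact z2)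
          have h4 : p y ∈ B (hist r n) y := (mB _ _ _).2 ⟨z1, fun m hm e =>
            hm.ne (hl.2 (e.trans (by simp only [hw]; exact z2.symm)))⟩
          exact ⟨fun ⟨x, hx⟩ => by
            have := (ih y).2 h4 ⟨x, Bm _ _ hx, fun e => h3 (e ▸ hx)⟩; omega, fun h => absurd h h3⟩
      · have : N (hist r (n + 1)) y = N (hist r n) y := by
          ext a
          rw [mN, mN]
          refine ⟨fun ⟨m, hm, e⟩ => ⟨m, lt_of_le_of_ne (by omega) fun h' => h ⟨a, h' ▸ e⟩, e⟩,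
            fun ⟨m, hm, e⟩ => ⟨m, by omega, e⟩⟩
        rw [this]
        exact ⟨fun h => (ih y).1 (h.mono (Bm _ _)),
          fun h ⟨x, x1, x2⟩ => (ih y).2 (Bm _ _ h) ⟨x, Bm _ _ x1, x2⟩⟩
  obtain ⟨⟨e, he⟩, hw | hw⟩ := hw
  · obtain ⟨x, y, hxy, rfl⟩ : ∃ x y, x < y ∧ e = s(x, y) := by
      induction e using Sym2.ind with
      | _ a b =>
        rcases lt_or_gt_of_ne (show a ≠ b by simpa using he.1) with h | h
        exacts [⟨a, b, h, rfl⟩, ⟨b, a, h, Sym2.eq_swap⟩]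
    obtain ⟨t, t1, t2⟩ := exists_subset_encard_eq (hw (Elus.gI_poss hl) y)
    have : ∀ w ∈ t, ∃ m, r m = (s(y, w), true) := fun w hw => ((fromEdgeSet_adj _).1 (t1 hw)).1
    choose! T hT using this
    have tf := finite_of_encard_eq_coe t2
    obtain ⟨n, hn⟩ := (tf.image T).bddAbove
    have h1 := ncard_le_ncard (fun w hw => (mN (n + 1) y w).2
      ⟨T w, Nat.lt_succ_of_le (hn ⟨w, hw, rfl⟩), hT w hw⟩) (Nf _ y)
    have h2 := (inv (n + 1) y).1 ⟨x, (mB _ _ _).2 ⟨hxy, fun m _ => he.2 m⟩⟩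
    have h3 : t.ncard = k := by rw [ncard_def, t2]; rfl
    omega
  refine eq_empty_iff_forall_notMem.1 hw (Elus.gI r ⊔ fromEdgeSet (white r))
    ⟨⟨fun e he => edgeSet_mono le_sup_left ((Elus.gI_poss hl).1 he), fun e he => ?_⟩, fun y => ?_⟩
  · rw [edgeSet_sup, edgeSet_fromEdgeSet] at he
    exact he.elim (fun h => (Elus.gI_poss hl).2 h) fun h => Or.inr h.1
  by_contra hlt
  have fin := finite_of_encard_le_coe (not_le.1 hlt).le
  have nb1 : ∀ w m, r m = (s(y, w), true) → w ∈ (Elus.gI r ⊔ fromEdgeSet (white r)).neighborSet y :=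
    fun w m h => Or.inl ((fromEdgeSet_adj _).2 ⟨⟨m, h⟩, by simpa [h] using hl.1 m⟩)
  have nb2 : ∀ w, w ≠ y → (∀ m, (r m).1 ≠ s(w, y)) →
      w ∈ (Elus.gI r ⊔ fromEdgeSet (white r)).neighborSet y := fun w h1 h2 =>
    Or.inr ((fromEdgeSet_adj _).2 ⟨⟨by simpa using h1.symm, fun m => Sym2.eq_swap ▸ h2 m⟩, h1.symm⟩)
  obtain ⟨n0, hn0⟩ : ∃ n0, ∀ x < y, (∀ m < n0, (r m).1 ≠ s(x, y)) → ∀ m, (r m).1 ≠ s(x, y) := by
    have : {m | (r m).1 ∈ (fun x => s(x, y)) '' Iio y}.Finite :=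
      ((finite_Iio y).image _).preimage hl.2.injOn
    obtain ⟨n, hn⟩ := this.bddAbove
    exact ⟨n + 1, fun x hx h m e => h m (Nat.lt_succ_of_le (hn ⟨x, hx, e.symm⟩)) e⟩
  have f2 : {w | s(w, y) ∈ (fun m => (r m).1) '' Iio n0}.Finite :=
    ((finite_Iio n0).image _).preimage fun a _ b _ h => Sym2.congr_left.1 h
  obtain ⟨_, ⟨j, rfl⟩, hj⟩ := (infinite_range_of_injective (f := fun j => Nat.pair y j + 1)
    fun a b h => (Nat.pair_eq_pair.1 (Nat.add_right_cancel h)).2).exists_notMem_finite (fin.union f2)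
  have hy : y < Nat.pair y j + 1 := Nat.lt_succ_of_le (Nat.left_le_pair y j)
  have hp : p (Nat.pair y j + 1) = y := by simp [p]
  obtain ⟨n, hn⟩ : ∃ n, (r n).1 = s(Nat.pair y j + 1, y) := by
    by_contra h; exact hj (Or.inl (nb2 _ hy.ne' fun m e => h ⟨m, e⟩))
  have h0 : n0 ≤ n := not_lt.1 fun h => hj (Or.inr ⟨n, h, hn⟩)
  have hA : ¬ A (hist r n) y := fun h => hj (Or.inl (nb1 _ n (Prod.ext (hn.trans Sym2.eq_swap)
    ((hr n).trans (decide_eq_true ⟨_, by rw [hp]; exact hy, by rw [hp, hn, Sym2.eq_swap],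
      by rw [hp]; exact h⟩)))))
  have key : ∀ s : Set ℕ, s ⊆ B (hist r n) y → (N (hist r n) y).ncard + s.ncard < k := by
    intro s hs
    have sf : s.Finite := (finite_Iio y).subset fun x hx => (hs hx).1
    rw [← ncard_union_eq (disjoint_left.2 fun w h1 h2 => by
      obtain ⟨m, hm, e⟩ := (mN _ _ _).1 h1
      exact ((mB _ _ _).1 (hs h2)).2 m hm (by rw [e, Sym2.eq_swap])) (Nf n y) sf]
    refine (ncard_le_ncard (fun w hw => ?_) fin).trans_lt ?_
    · rcases hw with hw | hw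
      · obtain ⟨m, -, e⟩ := (mN _ _ _).1 hw; exact nb1 w m e
      · obtain ⟨h1, h2⟩ := (mB _ _ _).1 (hs hw)
        exact nb2 w h1.ne (hn0 w h1 fun m hm => h2 m (hm.trans_le h0))
    · have := not_le.1 hlt
      rw [← fin.cast_ncard_eq] at this
      exact_mod_cast this
  refine hA ⟨by simpa using key ∅ (empty_subset _), fun ⟨x, hx⟩ => ?_, fun h ⟨x, h1, h2⟩ => ?_⟩
  · have := key {x} (singleton_subset_iff.2 hx)
    rw [ncard_singleton] at this; omega
  · have := key {x, p y} (insert_subset h1 (singleton_subset_iff.2 h))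
    rw [ncard_pair h2] at this; omega

theorem result (k : ℕ) (hk : 2 ≤ k) :
    (∃ τ, HiderStrat (D k) τ) ∧ ¬ ∃ σ, SeekerStrat (D k) σ := by
  obtain ⟨τ, hτ⟩ := hider k hk
  refine ⟨⟨τ, hτ⟩, fun ⟨σ, hσ⟩ => ?_⟩
  obtain ⟨r, -, hr⟩ := Elus.exists_run (fun h => (σ h, τ h (σ h))) (fun _ => (s(0, 0), true)) 0
  have h1 : ∀ n, (r n).1 = σ (hist r n) := fun n => congrArg Prod.fst (hr n n.zero_le)
  exact hτ r (hσ r h1).1 (fun n => by rw [h1]; exact congrArg Prod.snd (hr n n.zero_le)) (hσ r h1).2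

end Pool.Agent.Results.MP_3b52ff_co.Yes
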